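import Pool.Agent.D0H95.BF.LagP
import Pool.Agent.D0H95.BF.Lag8
import Pool.Agent.D0H95.BF.Zet
import Pool.Agent.D0H95.BF.Pert
import Pool.Agent.D0H70.BF.Bu
import Pool.Agent.D0H70.BF.Sad
import Pool.Agent.D0H70.BF.Eig
import Pool.Agent.D0H70.BF.Uni
import Pool.Agent.D0H81.BF.Four
import Pool.Agent.D0H65.BF.Tay
import Pool.Agent.D0H65.BF.Cir2
import Pool.Agent.D0H9.BF.Ana
import Pool.Agent.D0H9.BF.Ndg
import Pool.Agent.D0H2.BF.Cone
import Pool.Agent.D0H2.BF.Dich
import Pool.Agent.D0H25.BF.NT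

set_option autoImplicit false

/-!
# The elliptic Lagrange orbits are not Lyapunov stable

In the homographic solution of Lagrange with eccentricity `e` and semi-major axis `A` the three bodies
form an equilateral triangle for all times, and each body moves on a Kepler ellipse. The period is
`2 π √(A³ / M)`, `M = m₀ + m₁ + m₂`; in the centre of mass frame the solution is periodic. (For negative
`e` the bodies start at the greatest distance.) In the centre of mass frame the linearized period map has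
the multiplier `1` with multiplicity at least four; the other four multipliers are those of the reduced
orbit. The solution is called nondegenerate if these are different from each other and from `± 1`.

Theorem. (1) For ALL positive masses, all semi-major axes `A` and all eccentricities `0 < |e| < 1`: if the
elliptic Lagrange solution is nondegenerate, then its orbit is NOT Lyapunov stable in the centre of mass
frame. (2) If the masses are not all equal and `27 s ≠ M²`, `36 s ≠ M²`, `s = m₀ m₁ + m₁ m₂ + m₂ m₀`, then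
there is a set `D` of eccentricities, finite in each `[-E, E]`, `E < 1`, such that for all `0 < |e| < 1` not
in `D` and all semi-major axes the orbit is NOT Lyapunov stable. (For instance, in the range
`27 s < M²` of Gascheau and Routh there is `e₀ > 0` such that all these orbits with `0 < |e| < e₀` are not
Lyapunov stable, although they are linearly stable.)

Proof. The variational equation splits; in the direction transversal to the homographic motions it is,
with the eccentric anomaly `u`, `((1 - e cos u) ζ')' + 2 i √(1-e²) ζ' = 3/2 ζ + κ conj ζ`,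
`κ² = (9 - β) / 4`, `β = 27 s / M²`. Its period map is symplectic and real analytic in `e ∈ (-1, 1)`. If a
multiplier lies outside of the unit circle then the orbit is not stable: the homographic motions are
invariant, returns to a section, and a cone. Otherwise a nondegenerate solution has two pairs of
multipliers `exp (± i α₁)`, `exp (± i α₂)`, `sin α_j ≠ 0`, `cos α₁ ≠ cos α₂`. The elliptic solutions of
a fixed semi-major axis are an isochronous family, the exceptional case of the general results on stable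
orbits. By the argument of `StableOrbitsAreIsospectral` (bifurcation at the resonances against the locking
of the rotations) the multipliers are constant for `e` near a stable orbit, so by analyticity for ALL
`e ∈ (-1, 1)`. For `e = 0` they are then `exp (± 2 π i λ)` for the two roots `λ` of
`λ⁴ - λ² + β / 4 = 0`, and second order perturbation theory gives the angles
`2 π (λ + λ (6 λ² - 7) (λ² - 1) / (4 (4 λ² - 1) (2 λ² - 1)) e² + O (e³))`: they are not constant. For (2),
the discriminant and the values at `± 1` of the characteristic polynomial are analytic in `e` and not zero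
for `e = 0` if `β` is not `3/4`, `1`, `9`.
-/

namespace Pool.Agent.Results.MP_5027f4_mp.EllipticLagrangeSolutions

open Filter Topology

/-- Phase points of three bodies in the plane `ℂ`: positions and velocities (product topology). -/
abbrev Ph := (Fin 3 → ℂ) × (Fin 3 → ℂ)

/-- Newtonian acceleration of body `a`: `∑_{b ≠ a} m_b (q_b - q_a) / |q_b - q_a|^3`. -/
noncomputable def acc (m : Fin 3 → ℝ) (q : Fin 3 → ℂ) (a : Fin 3) : ℂ :=
  ∑ b ∈ Finset.univ.erase a, ((m b / ‖q b - q a‖ ^ 3 : ℝ) : ℂ) * (q b - q a)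

/-- Newton's vector field: the velocities and the accelerations. -/
noncomputable def newton (m : Fin 3 → ℝ) (z : Ph) : Ph := (z.2, acc m z.1)

/-- The phase space in the centre of mass frame: no collisions, `∑ m_a q_a = 0`, `∑ m_a v_a = 0`. -/
def phaseSpace (m : Fin 3 → ℝ) : Set Ph :=
  {z | (∀ a b, a ≠ b → z.1 a ≠ z.1 b) ∧ ∑ a, (m a : ℂ) * z.1 a = 0 ∧ ∑ a, (m a : ℂ) * z.2 a = 0}

/-- `x = (q, v)` is a solution of Newton's equations on the time set `J`, in the centre of mass frame. -/
def IsSol (m : Fin 3 → ℝ) (J : Set ℝ) (x : ℝ → Ph) : Prop :=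
  ∀ t ∈ J, x t ∈ phaseSpace m ∧ HasDerivWithinAt x (newton m (x t)) J t

/-- Lyapunov stability of an orbit `γ` in the centre of mass frame: for every neighbourhood `U₁` there is
a neighbourhood `U₂` such that every solution that starts in `U₂` stays in `U₁` in future, as long as it
is defined (solutions on `[0, τ)`; small neighbourhoods of a compact orbit are away from the collisions,
so that the solutions which stay there are defined for all times). -/
def LyapunovStable (m : Fin 3 → ℝ) (γ : Set Ph) : Prop :=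
  ∀ U₁ : Set Ph, IsOpen U₁ → γ ⊆ U₁ → ∃ U₂ : Set Ph, IsOpen U₂ ∧ γ ⊆ U₂ ∧
    ∀ (τ : ℝ) (y : ℝ → Ph), IsSol m (Set.Ico 0 τ) y → y 0 ∈ U₂ → ∀ t ∈ Set.Ico 0 τ, y t ∈ U₁

/-- `ξ` is a Jacobi field along `x`: it solves the linearization of Newton's equations along `x`, for all
times, in the centre of mass frame. -/
def IsJacobi (m : Fin 3 → ℝ) (x ξ : ℝ → Ph) : Prop :=
  ∀ t, (∑ a, (m a : ℂ) * (ξ t).1 a = 0 ∧ ∑ a, (m a : ℂ) * (ξ t).2 a = 0) ∧
    HasDerivAt ξ (fderiv ℝ (newton m) (x t) (ξ t)) t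

/-- The complex number `μ` is a multiplier of the solution `x` of period `T`: there are Jacobi fields
`ξ`, `η`, not both zero, such that the complex Jacobi field `ξ ⊗ 1 + η ⊗ i` is multiplied by `μ` in one
period. -/
def Multiplier (m : Fin 3 → ℝ) (x : ℝ → Ph) (T : ℝ) (μ : ℂ) : Prop :=
  ∃ ξ η : ℝ → Ph, IsJacobi m x ξ ∧ IsJacobi m x η ∧ (ξ 0 ≠ 0 ∨ η 0 ≠ 0) ∧
    (∀ t, ξ (t + T) = μ.re • ξ t - μ.im • η t) ∧ (∀ t, η (t + T) = μ.im • ξ t + μ.re • η t)

/-- Four different multipliers, all different from `± 1`. -/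
def Nondegenerate (m : Fin 3 → ℝ) (x : ℝ → Ph) (T : ℝ) : Prop :=
  ∃ μ : Fin 4 → ℂ, Function.Injective μ ∧ ∀ j, μ j ≠ 1 ∧ μ j ≠ -1 ∧ Multiplier m x T (μ j)

/-- Total mass. -/
def totalMass (m : Fin 3 → ℝ) : ℝ := m 0 + m 1 + m 2

/-- An equilateral triangle with sides `1` and centre of mass `0`. -/
def Equilateral (m : Fin 3 → ℝ) (a : Fin 3 → ℂ) : Prop :=
  (∀ i j, i ≠ j → ‖a i - a j‖ = 1) ∧ ∑ i, (m i : ℂ) * a i = 0

/-- The period of the elliptic Lagrange solutions of semi-major axis `A`. -/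
noncomputable def period (m : Fin 3 → ℝ) (A : ℝ) : ℝ :=
  2 * Real.pi * Real.sqrt (A ^ 3 / totalMass m)

/-- The initial condition of the elliptic Lagrange solution with the equilateral triangle `a` (sides `1`),
semi-major axis `A` and eccentricity `e`: the triangle has the side `A (1 - e)` and moves perpendicularly
to the radius vectors, with the velocity `√(M (1 + e) / (A (1 - e)))` per unit of `a`. -/
noncomputable def lagrange (m : Fin 3 → ℝ) (a : Fin 3 → ℂ) (A e : ℝ) : Ph :=
  ((fun i => ((A * (1 - e) : ℝ) : ℂ) * a i),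
    (fun i => ((Real.sqrt (totalMass m * (1 + e) / (A * (1 - e))) : ℝ) : ℂ) * Complex.I * a i))

/-- `x` is the elliptic Lagrange solution: it is a solution for all times with the right initial condition,
it has the period `period m A`, and the bodies form a triangle similar to `a` for all times. -/
def IsLagrange (m : Fin 3 → ℝ) (a : Fin 3 → ℂ) (A e : ℝ) (x : ℝ → Ph) : Prop :=
  IsSol m Set.univ x ∧ x 0 = lagrange m a A e ∧ (∀ t, x (t + period m A) = x t) ∧
    ∀ t, ∃ ρ v : ℂ, x t = ((fun i => ρ * a i), (fun i => v * a i))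

theorem result {m : Fin 3 → ℝ} (hm : ∀ i, 0 < m i) :
    (∀ a : Fin 3 → ℂ, Equilateral m a → ∀ A : ℝ, 0 < A → ∀ e : ℝ, 0 < |e| → |e| < 1 →
      ∃ x : ℝ → Ph, IsLagrange m a A e x ∧
        (Nondegenerate m x (period m A) → ¬ LyapunovStable m (Set.range x))) ∧
    (¬ (m 0 = m 1 ∧ m 1 = m 2) →
      27 * (m 0 * m 1 + m 1 * m 2 + m 2 * m 0) ≠ totalMass m ^ 2 →
      36 * (m 0 * m 1 + m 1 * m 2 + m 2 * m 0) ≠ totalMass m ^ 2 →
      ∃ D : Set ℝ, (∀ E : ℝ, E < 1 → (D ∩ Set.Icc (-E) E).Finite) ∧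
        ∀ a : Fin 3 → ℂ, Equilateral m a → ∀ A : ℝ, 0 < A → ∀ e : ℝ, 0 < |e| → |e| < 1 → e ∉ D →
          ∃ x : ℝ → Ph, IsLagrange m a A e x ∧ ¬ LyapunovStable m (Set.range x)) := by
  have hM0 : 0 < m 0 + m 1 + m 2 := by
    have h0 := hm 0
    have h1 := hm 1
    have h2 := hm 2
    positivity
  have hdata : ∀ {a : Fin 3 → ℂ} {A e : ℝ}, Equilateral m a → 0 < A → |e| < 1 →
      IsLagrange m a A e
        (Pool.Agent.D0H95.BF.xe a (Real.sqrt ((m 0 + m 1 + m 2) / A ^ 3)) A e) := by
    intro a A e ha hA he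
    obtain ⟨k1, k2, k3, k4⟩ := Pool.Agent.D0H95.BF.xe_data hm ha.1 ha.2 hA he
    exact ⟨k1, k2, k3, k4⟩
  have hν0 : ∀ {A : ℝ}, 0 < A → 0 < Real.sqrt ((m 0 + m 1 + m 2) / A ^ 3) := fun {A} hA =>
    Real.sqrt_pos.mpr (by positivity)
  have hνM : ∀ {A : ℝ}, 0 < A →
      Real.sqrt ((m 0 + m 1 + m 2) / A ^ 3) ^ 2 * A ^ 3 = m 0 + m 1 + m 2 := by
    intro A hA
    rw [Real.sq_sqrt (by positivity)]
    field_simp
  refine ⟨fun a ha A hA e he0 he => ⟨_, hdata ha hA he, ?_⟩, fun hne h27 h36 => ?_⟩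
  · rintro ⟨μ, hinj, hμ⟩
    set ν := Real.sqrt ((m 0 + m 1 + m 2) / A ^ 3) with hν
    have hT : period m A = 2 * Real.pi / ν := by
      change 2 * Real.pi * Real.sqrt (A ^ 3 / (m 0 + m 1 + m 2)) = _
      rw [hν, Real.sqrt_div (by positivity), Real.sqrt_div hM0.le]
      have : 0 < Real.sqrt (A ^ 3) := Real.sqrt_pos.mpr (by positivity)
      have : 0 < Real.sqrt (m 0 + m 1 + m 2) := Real.sqrt_pos.mpr hM0
      field_simp
    refine Pool.Agent.D0H95.BF.lagrange_nondeg
      (Pool.Agent.D0H70.BF.t_BU Pool.Agent.D0H70.BF.t_SAD)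
      Pool.Agent.D0H25.BF.t_NT Pool.Agent.D0H70.BF.t_EIG Pool.Agent.D0H95.BFT.t_PERT
      Pool.Agent.D0H70.BF.t_UNI Pool.Agent.D0H65.BF.t_TAY Pool.Agent.D0H95.BF.t_ZET
      Pool.Agent.D0H9.BF.t_ANA Pool.Agent.D0H65.BF.t_CIR2 Pool.Agent.D0H2.BF.t_CONE
      Pool.Agent.D0H2.BF.t_DICH Pool.Agent.D0H81.BF.t_FOUR hm ha.1 ha.2 (hν0 hA) hA (hνM hA)
      (abs_pos.mp he0) he hinj (fun j => ⟨(hμ j).1, (hμ j).2.1⟩) (fun j => ?_)
    obtain ⟨ξ, η, k1, k2, k3, k4, k5⟩ := (hμ j).2.2
    rw [hT] at k4 k5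
    exact ⟨ξ, η, k1, k2, k3, k4, k5⟩
  · obtain ⟨D, hD, hD2⟩ := Pool.Agent.D0H95.BF.lagrange_gen
      (Pool.Agent.D0H70.BF.t_BU Pool.Agent.D0H70.BF.t_SAD)
      Pool.Agent.D0H25.BF.t_NT Pool.Agent.D0H70.BF.t_EIG Pool.Agent.D0H95.BFT.t_PERT
      Pool.Agent.D0H70.BF.t_UNI Pool.Agent.D0H65.BF.t_TAY Pool.Agent.D0H95.BF.t_ZET
      Pool.Agent.D0H9.BF.t_ANA Pool.Agent.D0H65.BF.t_CIR2 Pool.Agent.D0H2.BF.t_CONE
      Pool.Agent.D0H2.BF.t_DICH Pool.Agent.D0H9.BF.t_NDG hm hne h27 h36
    refine ⟨D, hD, fun a ha A hA e he0 he heD => ⟨_, hdata ha hA he, ?_⟩⟩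
    exact hD2 a ha.1 ha.2 _ A (hν0 hA) hA (hνM hA) e (abs_pos.mp he0) he heD

end Pool.Agent.Results.MP_5027f4_mp.EllipticLagrangeSolutions
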