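import Pool.Agent.D0H95.PL.Pla

set_option autoImplicit false

/-!
# Nearly circular relative periodic orbits of a star with two small planets are not Lyapunov stable

(1) Perturbation principle, in which some of the limiting masses may vanish (restricted problems). Let
`x₀` be a relative periodic solution `x₀ (t + T₀) = c₀ • x₀ t` of the planar `n`-body problem with the masses
`m₀`, some of which may be `0`; suppose that `x₀` is not a relative equilibrium and is nondegenerate (all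
Jacobi fields with `ξ (t + T₀) = c₀ • ξ t` are combinations of the time shift and the rotation). Then for
all positive masses near `m₀` no relative periodic solution near `x₀`, with a period near `T₀`, has a
Lyapunov stable orbit in the centre of mass frame.

(2) Application to the three-body problem: a star of mass `M` and two planets on circular Kepler orbits
`q_j exp (i ν_j t)`, `ν_j² |q_j|³ = M`, of different radii and different frequencies (prograde or
retrograde), and a multiple `T` of the synodic period, `(ν₁ - ν₂) T ∈ 2 π ℤ`, such that `ν₁ T ∉ 2 π ℤ`. For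
`T` the synodic period itself this excludes only the resonances `ν₁ : ν₂ = j + 1 : j`. Uniformly for these
data in a compact set: if the masses are near `(M, 0, 0)` and positive, no relative periodic solution near
the circular motions, with a period near `T`, is Lyapunov stable. These are the relative periodic orbits of
the first kind of Poincaré, which exist for all small masses of the planets, and which are in general
elliptic and surrounded by invariant tori.

Proof. Lyapunov stable relative periodic orbits have a third twisted periodic Jacobi field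
(`Pool.Agent.D0H95.NB.stable_degenerate`; see the hand-in `StableOrbitsAreIsochronous`). Normalized, at
distance at least one from the time shift and the rotation, these fields converge along a sequence of
masses and solutions, by the `C^1` dependence of the flow on the masses, also at masses `0`, to such a field
of `x₀`. For (2) the linearized Kepler problem along a circular orbit is solved: in the rotating frame the
eccentric mode rotates by `ν_j T`, and the change of the radius produces a drift of the angle.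
-/

namespace Pool.Agent.Results.MP_5027f4_mp.PlanetaryOrbits

open Filter Topology

/-- Phase points of `n` bodies in the plane `ℂ`: positions and velocities (product topology). -/
abbrev Ph (n : ℕ) := (Fin n → ℂ) × (Fin n → ℂ)

/-- Newtonian acceleration of body `a`: `∑_{b ≠ a} m_b (q_b - q_a) / |q_b - q_a|^3`. -/
noncomputable def acc {n : ℕ} (m : Fin n → ℝ) (q : Fin n → ℂ) (a : Fin n) : ℂ :=
  ∑ b ∈ Finset.univ.erase a, ((m b / ‖q b - q a‖ ^ 3 : ℝ) : ℂ) * (q b - q a)

/-- Newton's vector field: the velocities and the accelerations. -/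
noncomputable def newton {n : ℕ} (m : Fin n → ℝ) (z : Ph n) : Ph n := (z.2, acc m z.1)

/-- The phase space in the centre of mass frame: no collisions, `∑ m_a q_a = 0`, `∑ m_a v_a = 0`. -/
def phaseSpace {n : ℕ} (m : Fin n → ℝ) : Set (Ph n) :=
  {z | (∀ a b, a ≠ b → z.1 a ≠ z.1 b) ∧ ∑ a, (m a : ℂ) * z.1 a = 0 ∧ ∑ a, (m a : ℂ) * z.2 a = 0}

/-- `x = (q, v)` is a solution of Newton's equations on the time set `J`, in the centre of mass frame. -/
def IsSol {n : ℕ} (m : Fin n → ℝ) (J : Set ℝ) (x : ℝ → Ph n) : Prop :=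
  ∀ t ∈ J, x t ∈ phaseSpace m ∧ HasDerivWithinAt x (newton m (x t)) J t

/-- All mutual distances are constant: a relative equilibrium. -/
def IsRelEq {n : ℕ} (x : ℝ → Ph n) : Prop :=
  ∀ t a b, ‖(x t).1 a - (x t).1 b‖ = ‖(x 0).1 a - (x 0).1 b‖

/-- Lyapunov stability of an orbit `γ` in the centre of mass frame: for every neighbourhood `U₁` there is
a neighbourhood `U₂` such that every solution on `[0, ∞)` that starts in `U₂` stays in `U₁`. -/
def LyapunovStable {n : ℕ} (m : Fin n → ℝ) (γ : Set (Ph n)) : Prop :=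
  ∀ U₁ : Set (Ph n), IsOpen U₁ → γ ⊆ U₁ → ∃ U₂ : Set (Ph n), IsOpen U₂ ∧ γ ⊆ U₂ ∧
    ∀ y : ℝ → Ph n, IsSol m (Set.Ici 0) y → y 0 ∈ U₂ → ∀ t : ℝ, 0 ≤ t → y t ∈ U₁

/-- `ξ` is a Jacobi field along `x`: it solves the linearization of Newton's equations along `x`, for all
times, in the centre of mass frame. -/
def IsJacobi {n : ℕ} (m : Fin n → ℝ) (x ξ : ℝ → Ph n) : Prop :=
  ∀ t, (∑ a, (m a : ℂ) * (ξ t).1 a = 0 ∧ ∑ a, (m a : ℂ) * (ξ t).2 a = 0) ∧
    HasDerivAt ξ (fderiv ℝ (newton m) (x t) (ξ t)) t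

/-- Nondegenerate relative periodic solution `x (t + T) = c • x t`: the Jacobi fields with
`ξ (t + T) = c • ξ t` are the real combinations of the time shift `d x / d t` and the rotation `i x`. -/
def Nondegenerate {n : ℕ} (m : Fin n → ℝ) (x : ℝ → Ph n) (T : ℝ) (c : ℂ) : Prop :=
  ∀ ξ : ℝ → Ph n, IsJacobi m x ξ → (∀ t, ξ (t + T) = c • ξ t) →
    ∃ α β : ℝ, ∀ t, ξ t = α • newton m (x t) + β • (Complex.I • x t)

/-- `z` is the phase point of two massless planets on circular orbits around a star of mass `M` at rest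
in `0`, with different radii and frequencies, and `T` is a multiple of their synodic period but no period
of the planets. -/
def CircularData (M : ℝ) (z : Ph 3) (T : ℝ) : Prop :=
  ∃ (ν₁ ν₂ : ℝ) (q₁ q₂ : ℂ), ν₁ ≠ ν₂ ∧ ‖q₁‖ ≠ ‖q₂‖ ∧ ν₁ ^ 2 * ‖q₁‖ ^ 3 = M ∧ ν₂ ^ 2 * ‖q₂‖ ^ 3 = M ∧
    Complex.exp (ν₁ * T * Complex.I) = Complex.exp (ν₂ * T * Complex.I) ∧
    Complex.exp (ν₁ * T * Complex.I) ≠ 1 ∧
    z = (![0, q₁, q₂], ![0, ν₁ * Complex.I * q₁, ν₂ * Complex.I * q₂])

theorem result :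
    (∀ (n : ℕ) (m₀ : Fin n → ℝ) (x₀ : ℝ → Ph n) (T₀ : ℝ) (c₀ : ℂ), 2 ≤ n → IsSol m₀ Set.univ x₀ →
      ¬ IsRelEq x₀ → 0 < T₀ → ‖c₀‖ = 1 → (∀ t, x₀ (t + T₀) = c₀ • x₀ t) →
      Nondegenerate m₀ x₀ T₀ c₀ →
      ∃ ε : ℝ, 0 < ε ∧ ∀ m : Fin n → ℝ, (∀ a, 0 < m a) → ‖m - m₀‖ < ε →
        ∀ (x : ℝ → Ph n) (T : ℝ) (c : ℂ), IsSol m Set.univ x → ‖x 0 - x₀ 0‖ < ε → |T - T₀| < ε →
          ‖c‖ = 1 → (∀ t, x (t + T) = c • x t) → ¬ LyapunovStable m (Set.range x)) ∧
    (∀ (M : ℝ) (K : Set (Ph 3 × ℝ)), 0 < M → IsCompact K →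
      (∀ p ∈ K, 0 < p.2 ∧ CircularData M p.1 p.2) →
      ∃ ε : ℝ, 0 < ε ∧ ∀ m : Fin 3 → ℝ, (∀ a, 0 < m a) → ‖m - ![M, 0, 0]‖ < ε →
        ∀ (x : ℝ → Ph 3) (T : ℝ) (c : ℂ), IsSol m Set.univ x →
          (∃ p ∈ K, ‖x 0 - p.1‖ < ε ∧ |T - p.2| < ε) →
          ‖c‖ = 1 → (∀ t, x (t + T) = c • x t) → ¬ LyapunovStable m (Set.range x)) := by
  constructor
  · intro n m₀ x₀ T₀ c₀ hn hx₀ hre hT hc hper hnd
    have hnd' : Pool.Agent.D0H95.NB.Nondeg m₀ x₀ T₀ c₀ := fun ξ h1 h2 =>
      hnd ξ (fun t => ⟨(h1 t).1, (h1 t).2⟩) h2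
    obtain ⟨ε, hε0, hε⟩ := Pool.Agent.D0H95.PL.near_limit hn hx₀ hre hT hc hper hnd'
    exact ⟨ε, hε0, fun m hm hmn x T c hx hxn hTn hc' hper' =>
      hε m hm hmn x hx hxn T c hTn hc' hper'⟩
  · intro M K hM hK hKd
    refine hK.induction_on (p := fun s => ∃ ε : ℝ, 0 < ε ∧ ∀ m : Fin 3 → ℝ, (∀ a, 0 < m a) →
      ‖m - ![M, 0, 0]‖ < ε → ∀ (x : ℝ → Ph 3) (T : ℝ) (c : ℂ), IsSol m Set.univ x →
          (∃ p ∈ s, ‖x 0 - p.1‖ < ε ∧ |T - p.2| < ε) →
          ‖c‖ = 1 → (∀ t, x (t + T) = c • x t) → ¬ LyapunovStable m (Set.range x)) ?_ ?_ ?_ ?_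
    · exact ⟨1, one_pos, fun m _ _ x T c _ ⟨p, hp, _⟩ => absurd hp (Set.notMem_empty p)⟩
    · rintro s t hst ⟨ε, hε0, hε⟩
      exact ⟨ε, hε0, fun m hm hmn x T c hx ⟨p, hp, h⟩ =>
        hε m hm hmn x T c hx ⟨p, hst hp, h⟩⟩
    · rintro s t ⟨ε, hε0, hε⟩ ⟨δ, hδ0, hδ⟩
      refine ⟨min ε δ, lt_min hε0 hδ0, fun m hm hmn x T c hx ⟨p, hp, h1, h2⟩ => ?_⟩
      rcases hp with hp | hp
      · exact hε m hm (hmn.trans_le (min_le_left _ _)) x T c hx
          ⟨p, hp, h1.trans_le (min_le_left _ _), h2.trans_le (min_le_left _ _)⟩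
      · exact hδ m hm (hmn.trans_le (min_le_right _ _)) x T c hx
          ⟨p, hp, h1.trans_le (min_le_right _ _), h2.trans_le (min_le_right _ _)⟩
    · rintro p hp
      obtain ⟨hT, ν₁, ν₂, q₁, q₂, hν, hq, h1, h2, h3, h4, hz⟩ := hKd p hp
      obtain ⟨ε, hε0, hε⟩ := Pool.Agent.D0H95.PL.planets hM h1 h2 hq hν hT h3 h4
      have hz0 : p.1 = Pool.Agent.D0H95.PL.circ ν₁ ν₂ q₁ q₂ 0 := by
        rw [hz]
        simp [Pool.Agent.D0H95.PL.circ]
      refine ⟨Metric.ball p (ε / 2), mem_nhdsWithin_of_mem_nhds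
        (Metric.ball_mem_nhds p (by positivity)), ε / 2, by positivity, ?_⟩
      intro m hm hmn x T c hx hclose hc hper
      obtain ⟨p', hp', h5, h6⟩ := hclose
      rw [Metric.mem_ball, Prod.dist_eq, max_lt_iff, dist_eq_norm, Real.dist_eq] at hp'
      refine hε m hm (hmn.trans (by linarith)) x hx ?_ T c ?_ hc hper
      · rw [← hz0]
        calc ‖x 0 - p.1‖ = ‖(x 0 - p'.1) + (p'.1 - p.1)‖ := by rw [sub_add_sub_cancel]
          _ ≤ ‖x 0 - p'.1‖ + ‖p'.1 - p.1‖ := norm_add_le _ _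
          _ < ε := by linarith [hp'.1]
      · calc |T - p.2| = |(T - p'.2) + (p'.2 - p.2)| := by rw [sub_add_sub_cancel]
          _ ≤ |T - p'.2| + |p'.2 - p.2| := abs_add_le _ _
          _ < ε := by linarith [hp'.2]

end Pool.Agent.Results.MP_5027f4_mp.PlanetaryOrbits
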