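import Pool.Agent.D0H95.GL.Nb2
import Pool.Agent.D0H3.BF.Nem
import Pool.Agent.D0H17.BF.Afl
import Pool.Agent.D0H25.BF.Xan

set_option autoImplicit false

/-!
# A Lyapunov stable orbit forces isochronous families, or a further multiplier `1`, in its neighbourhood

Let `x` be a relative periodic solution of the planar `n`-body problem which is not a relative equilibrium
and whose orbit is Lyapunov stable in the centre of mass frame. Then there is a neighbourhood `U` of the
orbit such that the following holds for ALL relative periodic solutions `y` which start in `U` (for example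
`y = x`), `y (t + T) = c • y t`, and are not relative equilibria.

* There is a Jacobi field `ξ` (a solution of the linearized equations along `y`) with `ξ (t + T) = c • ξ t`
which is no combination of the time shift and the rotation; and one of the following holds.

(R) The reduced periodic orbit is degenerate: such a field is tangent to the levels of energy and angular
momentum; a further multiplier of the period map of the reduced system is `1`.

(I) `y` belongs to an isochronous family, as the ellipses of the Kepler problem: there are solutions `Y l`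
for all `l` near the angular momentum of `y`, with a `C^1` curve of initial conditions through `y 0`, where
`Y l` has the angular momentum `l`, the SAME energy, the SAME period and the SAME rotation.

* (A) In every real analytic family `Y s`, `a < s < b`, of relative periodic solutions through `y`,
`Y s (t + τ s) = d s • Y s t`, the rotation and the scaled period are the same for ALL members:
`d s = c`, and `E ^ 3 τ ^ 2` is constant.

So in an analytic family in which the rotation or the scaled period is not constant no member is Lyapunov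
stable, and no member lies near a stable orbit (relative equilibria excepted).

Proof. The rotations of the relative periodic solutions starting in `U` are roots of unity of a fixed order
(starting result `StableOrbitsLockRotations`). If all Jacobi fields `ξ (t + T) = c • ξ t` are trivial, an
implicit function theorem with the two conserved functions gives solutions
`z (t + T) = exp (i s) c • z t` near `y` for all small `s`, a contradiction. So there is a third field `ξ`.
The Wronskian of `ξ` with the scaling field shows `d E (ξ) = 0`; if (R) does not hold then `d L (ξ) ≠ 0`, and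
the Wronskian with `ξ` shows that the fixed points of `exp (-i s) c⁻¹ Φ_T` near `y 0` form a curve
parametrized by the angular momentum, on which `s = 0` by the locking and the energy is constant by the
first remark. (A): after a Kepler scaling `τ = T`; the rotation is locally constant at `y`, and
`Φ_T (Y s 0) - c • Y s 0` is analytic in `s` (analyticity of the flow in the initial condition).
-/

namespace Pool.Agent.Results.MP_5027f4_mp.StabilityForcesIsochrony

open Filter Topology

/-- Phase points of `n` bodies in the plane `ℂ`: positions and velocities (product topology). -/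
abbrev Ph (n : ℕ) := (Fin n → ℂ) × (Fin n → ℂ)

/-- Newtonian acceleration of body `a`: `∑_{b ≠ a} m_b (q_b - q_a) / |q_b - q_a|^3`. -/
noncomputable def acc {n : ℕ} (m : Fin n → ℝ) (q : Fin n → ℂ) (a : Fin n) : ℂ :=
  ∑ b ∈ Finset.univ.erase a, ((m b / ‖q b - q a‖ ^ 3 : ℝ) : ℂ) * (q b - q a)

/-- Newton's vector field: the velocities and the accelerations. -/
noncomputable def newton {n : ℕ} (m : Fin n → ℝ) (z : Ph n) : Ph n := (z.2, acc m z.1)

/-- Total energy: kinetic energy minus the sum over pairs of `m_a m_b / |q_b - q_a|` (each pair occurs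
twice in the double sum, which is halved). -/
noncomputable def energy {n : ℕ} (m : Fin n → ℝ) (z : Ph n) : ℝ :=
  (∑ a, m a * ‖z.2 a‖ ^ 2) / 2 -
    (∑ a, ∑ b ∈ Finset.univ.erase a, m a * m b / ‖z.1 b - z.1 a‖) / 2

/-- Angular momentum. -/
noncomputable def angMom {n : ℕ} (m : Fin n → ℝ) (z : Ph n) : ℝ :=
  ∑ a, m a * ((starRingEnd ℂ) (z.1 a) * z.2 a).im

/-- The phase space in the centre of mass frame: no collisions, `∑ m_a q_a = 0`, `∑ m_a v_a = 0`. -/
def phaseSpace {n : ℕ} (m : Fin n → ℝ) : Set (Ph n) :=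
  {z | (∀ a b, a ≠ b → z.1 a ≠ z.1 b) ∧ ∑ a, (m a : ℂ) * z.1 a = 0 ∧ ∑ a, (m a : ℂ) * z.2 a = 0}

/-- `x = (q, v)` is a solution of Newton's equations on the time set `J`, in the centre of mass frame. -/
def IsSol {n : ℕ} (m : Fin n → ℝ) (J : Set ℝ) (x : ℝ → Ph n) : Prop :=
  ∀ t ∈ J, x t ∈ phaseSpace m ∧ HasDerivWithinAt x (newton m (x t)) J t

/-- All mutual distances are constant: a relative equilibrium. -/
def IsRelEq {n : ℕ} (x : ℝ → Ph n) : Prop :=
  ∀ t a b, ‖(x t).1 a - (x t).1 b‖ = ‖(x 0).1 a - (x 0).1 b‖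

/-- Lyapunov stability of an orbit `γ` in the centre of mass frame: for every neighbourhood `U₁` there is
a neighbourhood `U₂` such that every solution on `[0, ∞)` that starts in `U₂` stays in `U₁`. -/
def LyapunovStable {n : ℕ} (m : Fin n → ℝ) (γ : Set (Ph n)) : Prop :=
  ∀ U₁ : Set (Ph n), IsOpen U₁ → γ ⊆ U₁ → ∃ U₂ : Set (Ph n), IsOpen U₂ ∧ γ ⊆ U₂ ∧
    ∀ y : ℝ → Ph n, IsSol m (Set.Ici 0) y → y 0 ∈ U₂ → ∀ t : ℝ, 0 ≤ t → y t ∈ U₁

/-- `ξ` is a Jacobi field along `x`: it solves the linearization of Newton's equations along `x`, for all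
times, in the centre of mass frame. -/
def IsJacobi {n : ℕ} (m : Fin n → ℝ) (x ξ : ℝ → Ph n) : Prop :=
  ∀ t, (∑ a, (m a : ℂ) * (ξ t).1 a = 0 ∧ ∑ a, (m a : ℂ) * (ξ t).2 a = 0) ∧
    HasDerivAt ξ (fderiv ℝ (newton m) (x t) (ξ t)) t

/-- `ξ` is a real combination of the time shift `d x / d t` and of the infinitesimal rotation `i x`. -/
def Trivial {n : ℕ} (m : Fin n → ℝ) (x ξ : ℝ → Ph n) : Prop :=
  ∃ α β : ℝ, ∀ t, ξ t = α • newton m (x t) + β • (Complex.I • x t)

/-- (R): there is a nontrivial Jacobi field `ξ (t + T) = c • ξ t` tangent to the levels of energy and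
angular momentum. -/
def ReducedDegenerate {n : ℕ} (m : Fin n → ℝ) (x : ℝ → Ph n) (T : ℝ) (c : ℂ) : Prop :=
  ∃ ξ : ℝ → Ph n, IsJacobi m x ξ ∧ (∀ t, ξ (t + T) = c • ξ t) ∧
    (∀ t, fderiv ℝ (energy m) (x t) (ξ t) = 0) ∧ (∀ t, fderiv ℝ (angMom m) (x t) (ξ t) = 0) ∧
    ¬ Trivial m x ξ

/-- (I): `x` belongs to a family of solutions with the same energy, the same `T` and the same rotation
`c`, which is parametrized by the angular momentum. -/
def Isochronous {n : ℕ} (m : Fin n → ℝ) (x : ℝ → Ph n) (T : ℝ) (c : ℂ) : Prop :=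
  ∃ ε : ℝ, 0 < ε ∧ ∃ y : ℝ → ℝ → Ph n, y (angMom m (x 0)) = x ∧
    ContDiffOn ℝ 1 (fun l => y l 0) (Metric.ball (angMom m (x 0)) ε) ∧
    ∀ l ∈ Metric.ball (angMom m (x 0)) ε, IsSol m Set.univ (y l) ∧
      (∀ t, y l (t + T) = c • y l t) ∧ energy m (y l 0) = energy m (x 0) ∧ angMom m (y l 0) = l

/-- `x` is a relative periodic solution: `x (t + T) = c • x t`, `T > 0`, `|c| = 1`. -/
def RelPer {n : ℕ} (m : Fin n → ℝ) (x : ℝ → Ph n) (T : ℝ) (c : ℂ) : Prop :=
  IsSol m Set.univ x ∧ 0 < T ∧ ‖c‖ = 1 ∧ ∀ t, x (t + T) = c • x t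

/-- `Y s`, `a < s < b`, is a real analytic family of relative periodic solutions: the initial conditions
`Y s 0` and the periods `τ s` are analytic in `s`. -/
def AnalyticFamily {n : ℕ} (m : Fin n → ℝ) (a b : ℝ) (Y : ℝ → ℝ → Ph n) (τ : ℝ → ℝ) (d : ℝ → ℂ) :
    Prop :=
  AnalyticOnNhd ℝ (fun s => Y s 0) (Set.Ioo a b) ∧ AnalyticOnNhd ℝ τ (Set.Ioo a b) ∧
    ∀ s ∈ Set.Ioo a b, RelPer m (Y s) (τ s) (d s)

theorem result {n : ℕ} {m : Fin n → ℝ} (hn : 2 ≤ n) (hm : ∀ a, 0 < m a) {x : ℝ → Ph n} {T₀ : ℝ}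
    {c₀ : ℂ} (hx : RelPer m x T₀ c₀) (hne : ¬ IsRelEq x) (hst : LyapunovStable m (Set.range x)) :
    ∃ U : Set (Ph n), IsOpen U ∧ Set.range x ⊆ U ∧
      ∀ (y : ℝ → Ph n) (T : ℝ) (c : ℂ), RelPer m y T c → y 0 ∈ U → ¬ IsRelEq y →
        (∃ ξ : ℝ → Ph n, IsJacobi m y ξ ∧ (∀ t, ξ (t + T) = c • ξ t) ∧ ¬ Trivial m y ξ) ∧
        (ReducedDegenerate m y T c ∨ Isochronous m y T c) ∧
        ∀ (a b : ℝ) (Y : ℝ → ℝ → Ph n) (τ : ℝ → ℝ) (d : ℝ → ℂ), AnalyticFamily m a b Y τ d →
          (∃ s₀ ∈ Set.Ioo a b, Y s₀ = y ∧ τ s₀ = T) →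
          ∀ s ∈ Set.Ioo a b, d s = c ∧
            energy m (Y s 0) ^ 3 * τ s ^ 2 = energy m (y 0) ^ 3 * T ^ 2 := by
  obtain ⟨h1, h2, h3, h4⟩ := hx
  obtain ⟨K, U, hlk, hxU⟩ := Pool.Agent.D0H95.GL.lk_stable hn hm h1 hne hst h2 h3 h4
  refine ⟨U, hlk.2.1, hxU, ?_⟩
  rintro y T c ⟨hy, hT, hc, hper⟩ hyU hre
  refine ⟨?_, ?_, ?_⟩
  · have h := Pool.Agent.D0H95.GL.lk_degenerate hn hm hlk hy hre hyU hT hc hper
    unfold Pool.Agent.D0H95.NB.Nondeg at h
    push Not at h
    obtain ⟨ξ, h1, h2, h3⟩ := h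
    refine ⟨ξ, fun t => ⟨(h1 t).1, (h1 t).2⟩, h2, ?_⟩
    rintro ⟨α, β, h4⟩
    obtain ⟨t, ht⟩ := h3 α β
    exact ht (h4 t)
  · by_cases hR : ReducedDegenerate m y T c
    · exact Or.inl hR
    · refine Or.inr ?_
      refine Pool.Agent.D0H95.GN.iso_n hn hm hlk hy hre hyU hT hc hper fun ξ h1 h2 h3 => ?_
      by_contra h4
      refine hR ⟨ξ, fun t => ⟨(h1 t).1, (h1 t).2⟩, h2, ?_, h3, h4⟩
      exact Pool.Agent.D0H95.NB.energy_zero hy (fun t => (h1 t).2) hT hc hper h2
  · rintro a b Y τ d ⟨q1, q2, q3⟩ ⟨s₀, hs₀, r1, r2⟩ s hs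
    have hd : d s₀ = c := by
      refine Pool.Agent.D0H95.GN.rot_unique hn hy hper fun t => ?_
      have := (q3 s₀ hs₀).2.2.2 t
      rw [r1, r2] at this
      exact this
    have key := Pool.Agent.D0H95.GN.lock_var hn Pool.Agent.D0H3.BF.t_NEM Pool.Agent.D0H17.BF.t_AFL
      Pool.Agent.D0H25.BF.t_XAN hlk q1 q2 (fun s hs => ⟨(q3 s hs).1, (q3 s hs).2.1,
      (q3 s hs).2.2.1, (q3 s hs).2.2.2⟩) hs₀ (by rw [r1]; exact hyU) hs
    rw [r1, r2, hd] at key
    exact key

end Pool.Agent.Results.MP_5027f4_mp.StabilityForcesIsochrony
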