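import Pool.Agent.D0H95.GL.Fin
import Pool.Agent.D0H70.BF.Bu
import Pool.Agent.D0H70.BF.Sad
import Pool.Agent.D0H70.BF.Eig
import Pool.Agent.D0H25.BF.NT
import Pool.Agent.D0H3.BF.Nem
import Pool.Agent.D0H17.BF.Afl
import Pool.Agent.D0H25.BF.Xan

set_option autoImplicit false

/-!
# A Lyapunov stable orbit forces isospectral families in its neighbourhood

Let `x` be a relative periodic solution of the planar three-body problem, not a relative equilibrium, whose
orbit is Lyapunov stable in the centre of mass frame. Then there is a neighbourhood `U` of its orbit such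
that the following holds for ALL relative periodic solutions `y` which start in `U` (for example `y = x`),
`y (t + T) = c • y t`, which are not relative equilibria and whose four reduced multipliers are two pairs
`exp (± i α₁)`, `exp (± i α₂)` on the unit circle, `sin α_j ≠ 0`, `cos α₁ ≠ cos α₂` (the linearly stable
case).

(1) `y` belongs to a family of solutions for all `l` near the angular momentum of `y`, with a `C^1` curve of
initial conditions, with angular momentum `l`, the SAME energy, the SAME period and rotation, and the SAME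
two pairs of multipliers.

(2) Let `Y s`, `a < s < b`, be any real analytic family of relative periodic solutions through `y`:
`Y s (t + τ s) = d s • Y s t`, `Y s₀ = y`, `τ s₀ = T`, on which `E L ^ 2` (energy times square of the angular
momentum, the scaling invariant) is not constant. Then ALL members of the family, however far from `y`, have
the same rotation `d s = c`, the same scaled period (`E ^ 3 τ ^ 2` is constant) and the same pairs of
multipliers.

So in an analytic family in which the rotation, the scaled period or the multipliers are not constant (for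
instance with a hyperbolic member, or with members with other multipliers, anywhere in the family) no
member with two elliptic pairs is Lyapunov stable, and such a member does not even lie near a stable orbit.

Proof. Rotations of relative periodic solutions starting in `U` are roots of unity of a fixed order
(starting result `StableOrbitsLockRotations`). (1) as in the first version of this result: implicit function
theorem and bifurcation at resonant multipliers. (2) After a Kepler scaling `τ = T`. The rotation is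
locally constant near `s₀`, and constant by analyticity of the flow in the initial condition; so is the
energy. The multipliers are locally constant at all `s` near `s₀` with `L' (s) ≠ 0`, by the bifurcation
argument, and hence near `s₀`; they solve an equation analytic in `s`, and so they are constant.
-/

namespace Pool.Agent.Results.MP_5027f4_mp.StabilityForcesIsospectrality

open Filter Topology

/-- Phase points of `n` bodies in the plane `ℂ`: positions and velocities (product topology). -/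
abbrev Ph (n : ℕ) := (Fin n → ℂ) × (Fin n → ℂ)

/-- Newtonian acceleration of body `a`: `∑_{b ≠ a} m_b (q_b - q_a) / |q_b - q_a|^3`. -/
noncomputable def acc {n : ℕ} (m : Fin n → ℝ) (q : Fin n → ℂ) (a : Fin n) : ℂ :=
  ∑ b ∈ Finset.univ.erase a, ((m b / ‖q b - q a‖ ^ 3 : ℝ) : ℂ) * (q b - q a)

/-- Newton's vector field: the velocities and the accelerations. -/
noncomputable def newton {n : ℕ} (m : Fin n → ℝ) (z : Ph n) : Ph n := (z.2, acc m z.1)

/-- Total energy: kinetic energy minus the sum over pairs of `m_a m_b / |q_b - q_a|` (each pair occurs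
twice in the double sum, which is halved). -/
noncomputable def energy {n : ℕ} (m : Fin n → ℝ) (z : Ph n) : ℝ :=
  (∑ a, m a * ‖z.2 a‖ ^ 2) / 2 -
    (∑ a, ∑ b ∈ Finset.univ.erase a, m a * m b / ‖z.1 b - z.1 a‖) / 2

/-- Angular momentum. -/
noncomputable def angMom {n : ℕ} (m : Fin n → ℝ) (z : Ph n) : ℝ :=
  ∑ a, m a * ((starRingEnd ℂ) (z.1 a) * z.2 a).im

/-- The phase space in the centre of mass frame: no collisions, `∑ m_a q_a = 0`, `∑ m_a v_a = 0`. -/
def phaseSpace {n : ℕ} (m : Fin n → ℝ) : Set (Ph n) :=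
  {z | (∀ a b, a ≠ b → z.1 a ≠ z.1 b) ∧ ∑ a, (m a : ℂ) * z.1 a = 0 ∧ ∑ a, (m a : ℂ) * z.2 a = 0}

/-- `x = (q, v)` is a solution of Newton's equations on the time set `J`, in the centre of mass frame. -/
def IsSol {n : ℕ} (m : Fin n → ℝ) (J : Set ℝ) (x : ℝ → Ph n) : Prop :=
  ∀ t ∈ J, x t ∈ phaseSpace m ∧ HasDerivWithinAt x (newton m (x t)) J t

/-- All mutual distances are constant: a relative equilibrium. -/
def IsRelEq {n : ℕ} (x : ℝ → Ph n) : Prop :=
  ∀ t a b, ‖(x t).1 a - (x t).1 b‖ = ‖(x 0).1 a - (x 0).1 b‖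

/-- Lyapunov stability of an orbit `γ` in the centre of mass frame: for every neighbourhood `U₁` there is
a neighbourhood `U₂` such that every solution on `[0, ∞)` that starts in `U₂` stays in `U₁`. -/
def LyapunovStable {n : ℕ} (m : Fin n → ℝ) (γ : Set (Ph n)) : Prop :=
  ∀ U₁ : Set (Ph n), IsOpen U₁ → γ ⊆ U₁ → ∃ U₂ : Set (Ph n), IsOpen U₂ ∧ γ ⊆ U₂ ∧
    ∀ y : ℝ → Ph n, IsSol m (Set.Ici 0) y → y 0 ∈ U₂ → ∀ t : ℝ, 0 ≤ t → y t ∈ U₁

/-- `ξ` is a Jacobi field along `x`: it solves the linearization of Newton's equations along `x`, for all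
times, in the centre of mass frame. -/
def IsJacobi {n : ℕ} (m : Fin n → ℝ) (x ξ : ℝ → Ph n) : Prop :=
  ∀ t, (∑ a, (m a : ℂ) * (ξ t).1 a = 0 ∧ ∑ a, (m a : ℂ) * (ξ t).2 a = 0) ∧
    HasDerivAt ξ (fderiv ℝ (newton m) (x t) (ξ t)) t

/-- `exp (± i α)` is a pair of multipliers of `x`, `x (t + T) = c • x t`: there are Jacobi fields `ξ`,
`η`, `ξ 0 ≠ 0`, which are multiplied in one period by `c` and a rotation by the angle `α` in the real
plane of `ξ` and `η` (the complex Jacobi field `ξ ⊗ 1 + η ⊗ i` is multiplied by `c` and `exp (i α)`). -/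
def MultiplierPair (m : Fin 3 → ℝ) (x : ℝ → Ph 3) (T : ℝ) (c : ℂ) (α : ℝ) : Prop :=
  ∃ ξ η : ℝ → Ph 3, IsJacobi m x ξ ∧ IsJacobi m x η ∧ ξ 0 ≠ 0 ∧
    (∀ t, ξ (t + T) = c • (Real.cos α • ξ t - Real.sin α • η t)) ∧
    (∀ t, η (t + T) = c • (Real.sin α • ξ t + Real.cos α • η t))

/-- `x` is a relative periodic solution: `x (t + T) = c • x t`, `T > 0`, `|c| = 1`. -/
def RelPer (m : Fin 3 → ℝ) (x : ℝ → Ph 3) (T : ℝ) (c : ℂ) : Prop :=
  IsSol m Set.univ x ∧ 0 < T ∧ ‖c‖ = 1 ∧ ∀ t, x (t + T) = c • x t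

/-- The linearly stable case: two different pairs of multipliers `exp (± i α₁)`, `exp (± i α₂)`, not real. -/
def Elliptic (m : Fin 3 → ℝ) (x : ℝ → Ph 3) (T : ℝ) (c : ℂ) (α₁ α₂ : ℝ) : Prop :=
  MultiplierPair m x T c α₁ ∧ MultiplierPair m x T c α₂ ∧
    Real.sin α₁ ≠ 0 ∧ Real.sin α₂ ≠ 0 ∧ Real.cos α₁ ≠ Real.cos α₂

/-- `Y s`, `a < s < b`, is a real analytic family of relative periodic solutions: the initial conditions
`Y s 0` and the periods `τ s` are analytic in `s`. -/
def AnalyticFamily (m : Fin 3 → ℝ) (a b : ℝ) (Y : ℝ → ℝ → Ph 3) (τ : ℝ → ℝ) (d : ℝ → ℂ) : Prop :=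
  AnalyticOnNhd ℝ (fun s => Y s 0) (Set.Ioo a b) ∧ AnalyticOnNhd ℝ τ (Set.Ioo a b) ∧
    ∀ s ∈ Set.Ioo a b, RelPer m (Y s) (τ s) (d s)

/-- (1): `y` lies in an isochronous and isospectral family, parametrized by the angular momentum. -/
def Isospectral (m : Fin 3 → ℝ) (y : ℝ → Ph 3) (T : ℝ) (c : ℂ) (α₁ α₂ : ℝ) : Prop :=
  ∃ ε : ℝ, 0 < ε ∧ ∃ Y : ℝ → ℝ → Ph 3, Y (angMom m (y 0)) = y ∧
    ContDiffOn ℝ 1 (fun l => Y l 0) (Metric.ball (angMom m (y 0)) ε) ∧
    ∀ l ∈ Metric.ball (angMom m (y 0)) ε, RelPer m (Y l) T c ∧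
      energy m (Y l 0) = energy m (y 0) ∧ angMom m (Y l 0) = l ∧ Elliptic m (Y l) T c α₁ α₂

theorem result {m : Fin 3 → ℝ} (hm : ∀ a, 0 < m a) {x : ℝ → Ph 3} {T₀ : ℝ} {c₀ : ℂ}
    (hx : RelPer m x T₀ c₀) (hne : ¬ IsRelEq x) (hst : LyapunovStable m (Set.range x)) :
    ∃ U : Set (Ph 3), IsOpen U ∧ Set.range x ⊆ U ∧
      ∀ (y : ℝ → Ph 3) (T : ℝ) (c : ℂ) (α₁ α₂ : ℝ), RelPer m y T c → y 0 ∈ U → ¬ IsRelEq y →
        Elliptic m y T c α₁ α₂ →
        Isospectral m y T c α₁ α₂ ∧
        ∀ (a b : ℝ) (Y : ℝ → ℝ → Ph 3) (τ : ℝ → ℝ) (d : ℝ → ℂ), AnalyticFamily m a b Y τ d →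
          (∃ s₀ ∈ Set.Ioo a b, Y s₀ = y ∧ τ s₀ = T) →
          (∃ s ∈ Set.Ioo a b, energy m (Y s 0) * angMom m (Y s 0) ^ 2 ≠
            energy m (y 0) * angMom m (y 0) ^ 2) →
          ∀ s ∈ Set.Ioo a b, d s = c ∧
            energy m (Y s 0) ^ 3 * τ s ^ 2 = energy m (y 0) ^ 3 * T ^ 2 ∧
            Elliptic m (Y s) (τ s) c α₁ α₂ := by
  obtain ⟨h1, h2, h3, h4⟩ := hx
  obtain ⟨U, hU, hxU, key⟩ := Pool.Agent.D0H95.GL.rigid
    (Pool.Agent.D0H70.BF.t_BU Pool.Agent.D0H70.BF.t_SAD) Pool.Agent.D0H25.BF.t_NT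
    Pool.Agent.D0H70.BF.t_EIG Pool.Agent.D0H3.BF.t_NEM Pool.Agent.D0H17.BF.t_AFL
    Pool.Agent.D0H25.BF.t_XAN hm h1 hne hst h2 h3 h4
  refine ⟨U, hU, hxU, ?_⟩
  rintro y T c α₁ α₂ ⟨k1, k2, k3, k4⟩ hyU hre ⟨e1, e2, e3, e4, e5⟩
  obtain ⟨⟨ε, hε, Y, f1, f2, f3⟩, g⟩ := key y T c α₁ α₂ k1 k2 k3 k4 hyU hre e1 e2 e3 e4 e5
  refine ⟨⟨ε, hε, Y, f1, f2, fun l hl => ?_⟩, ?_⟩
  · obtain ⟨p1, p2, p3, p4, p5, p6⟩ := f3 l hl
    exact ⟨⟨p1, k2, k3, p2⟩, p3, p4, p5, p6, e3, e4, e5⟩
  · rintro a b Y τ d ⟨q1, q2, q3⟩ ⟨s₀, hs₀, r1, r2⟩ ⟨s₁, hs₁, r3⟩ s hs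
    obtain ⟨w1, w2, w3, w4⟩ := g a b Y τ d q1 q2 (fun s hs => ⟨(q3 s hs).1, (q3 s hs).2.1,
      (q3 s hs).2.2.1, (q3 s hs).2.2.2⟩) s₀ hs₀ r1 r2 s₁ hs₁ r3 s hs
    exact ⟨w1, w2, w3, w4, e3, e4, e5⟩

end Pool.Agent.Results.MP_5027f4_mp.StabilityForcesIsospectrality
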